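import Pool.Agent.Y772.HI.Pub

/-!
# Simple zeros on the critical line of L-functions of degree two of Hecke characters

Let `K` be a real quadratic field and `ψ` a primitive Hecke character of `K` of any finite
conductor and any infinity type (in general of infinite order), whose automorphic induction to
`GL_2` over `ℚ` is cuspidal.  The twists of its L-function by primitive Dirichlet characters `χ`
have degree two.  We prove, without any hypothesis, that in the average over `χ` at least 67.25 per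
cent of the zeros are simple and lie on the critical line, and that there are at least 83.625 per
cent as many distinct zeros as zeros counted with multiplicity.

All definitions (`IsHecke`, `Irr`, `IsL`, `zeros`, `N₀`, `Ns`, `Nd`, `fam`) are in
`Pool/Agent/Y772/HI/Pub.lean`.
-/

open NumberField
open Pool.Agent.Y772.HI.Pub (IsHecke Irr IsL N₀ Ns Nd fam)

namespace Pool.Agent.Results.MP_8ad8be_nt.DihedralSimpleZeros

/-- **Main theorem.** -/
theorem result (K : Type) [Field K] [NumberField K] [IsTotallyReal K]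
    (hK : Module.finrank ℚ K = 2) (𝔣 : Ideal (𝓞 K)) (ν : InfinitePlace K → ℝ)
    (ψ : Ideal (𝓞 K) →*₀ ℂ) (hψ : IsHecke K 𝔣 ν ψ) (hirr : Irr 𝔣 ψ) :
    ∃ L : (q : ℕ) → DirichletCharacter ℂ q → ℂ → ℂ,
      (∀ (q : ℕ) (χ : DirichletCharacter ℂ q), 2 ≤ q →
        Nat.Coprime q (Ideal.absNorm 𝔣 * (discr K).natAbs) → χ.IsPrimitive → IsL ψ q χ (L q χ)) ∧
      ∃ κ η X₀ : ℝ, 1 ≤ κ ∧ 0 < η ∧ 1 ≤ X₀ ∧
        ∀ (X Y : ℕ) (T : ℝ), X₀ ≤ X → κ * X ≤ Y → (Y : ℝ) ≤ (X : ℝ) ^ (1 + η) →
        (Real.log X) ^ 2 ≤ T → T ≤ (X : ℝ) ^ η →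
        0.6725 * fam (Ideal.absNorm 𝔣 * (discr K).natAbs) X Y (fun q χ => N₀ (L q χ) T) ≤
          fam (Ideal.absNorm 𝔣 * (discr K).natAbs) X Y (fun q χ => Ns (L q χ) T) ∧
        0.83625 * fam (Ideal.absNorm 𝔣 * (discr K).natAbs) X Y (fun q χ => N₀ (L q χ) T) ≤
          fam (Ideal.absNorm 𝔣 * (discr K).natAbs) X Y (fun q χ => Nd (L q χ) T) :=
  Pool.Agent.Y772.HI.Pub.two hK hψ hirr

end Pool.Agent.Results.MP_8ad8be_nt.DihedralSimpleZeros
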